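import Pool.Agent.H98.EX.LTargets

/-!
# Row NU2X of the board exa: the slope of the first level
-/

set_option autoImplicit false

namespace Pool.Agent.H48.EX

open Filter Topology

theorem pf_NU2X : Pool.Agent.H98.EX.T_NU2X := by
  intro Λ hΛ
  have hΛ0 : 0 < Λ := by linarith
  obtain ⟨y, hy⟩ : ∃ y : ℝ, y = 1 / (2 * Λ) := ⟨_, rfl⟩
  have hy1 : y < 1 := by
    rw [hy, div_lt_one (by positivity)]
    linarith
  have hy2 : Λ * y = 1 / 2 := by
    rw [hy]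
    field_simp
  obtain ⟨c, hc⟩ : ∃ c : ℝ, c = (1 - y) / 8 := ⟨_, rfl⟩
  have hc0 : 0 < c := by rw [hc]; linarith
  obtain ⟨x, hx⟩ : ∃ x : ℝ, x = Real.exp (-c) := ⟨_, rfl⟩
  have hx0 : 0 < x := by rw [hx]; exact Real.exp_pos _
  have hx1 : x < 1 := by rw [hx, Real.exp_lt_one_iff]; linarith
  have hxc : 1 - x ≤ c := by
    rw [hx]
    linarith [Real.add_one_le_exp (-c)]
  have h1x : 0 < 1 - x := by linarith
  have hx4 : y < x ^ 4 := by
    have h1 : x ^ 4 = Real.exp (-(4 * c)) := by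
      rw [hx, ← Real.exp_nat_mul]
      congr 1
      push_cast
      ring
    rw [h1]
    have h2 := Real.add_one_le_exp (-(4 * c))
    have h3 : 4 * c = (1 - y) / 2 := by rw [hc]; ring
    linarith
  refine ⟨c, hc0, ?_⟩
  have hs := hasSum_coe_mul_geometric_of_norm_lt_one (𝕜 := ℝ) (r := x)
    (by rw [Real.norm_eq_abs, abs_of_pos hx0]; exact hx1)
  have hlim : Tendsto (fun N : ℕ => Λ * c ^ 2 * (x ^ 3 * ∑ U ∈ Finset.range N, (U : ℝ) * x ^ U))
      atTop (𝓝 (Λ * c ^ 2 * (x ^ 3 * (x / (1 - x) ^ 2)))) :=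
    (hs.tendsto_sum_nat.const_mul _).const_mul _
  have hbig : 1 / 2 < Λ * c ^ 2 * (x ^ 3 * (x / (1 - x) ^ 2)) := by
    have h1 : x ^ 4 ≤ c ^ 2 * (x ^ 3 * (x / (1 - x) ^ 2)) := by
      have h2 : c ^ 2 * (x ^ 3 * (x / (1 - x) ^ 2)) = x ^ 4 * (c ^ 2 / (1 - x) ^ 2) := by ring
      rw [h2]
      have h3 : 1 ≤ c ^ 2 / (1 - x) ^ 2 := by
        rw [le_div_iff₀ (by positivity), one_mul]
        exact pow_le_pow_left₀ h1x.le hxc 2
      exact le_mul_of_one_le_right (by positivity) h3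
    have h2 : Λ * y < Λ * (c ^ 2 * (x ^ 3 * (x / (1 - x) ^ 2))) :=
      mul_lt_mul_of_pos_left (hx4.trans_le h1) hΛ0
    rw [hy2] at h2
    rw [mul_assoc]
    exact h2
  obtain ⟨N, hN⟩ := ((hlim.eventually (lt_mem_nhds hbig)).exists)
  refine ⟨N, hN.trans_le (le_of_eq ?_)⟩
  congr 1
  rw [Finset.mul_sum]
  refine Finset.sum_congr rfl fun U _ => ?_
  have h1 : Real.exp (-(c * ((U : ℝ) + 3))) = x ^ (U + 3) := by
    rw [hx, ← Real.exp_nat_mul]
    congr 1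
    push_cast
    ring
  rw [h1]
  ring

end Pool.Agent.H48.EX
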